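import Mathlib

/-! Walsh transform, plateaued functions and CCZ-equivalence for maps `F₂ⁿ → F₂ⁿ`. -/

namespace Pool.Agent.MP_942673_co

/-- The Walsh transform `W_G(a,b) = ∑ₓ (-1)^(b·G(x) + a·x)`. -/
def walsh {n : ℕ} (G : (Fin n → ZMod 2) → (Fin n → ZMod 2)) (a b : Fin n → ZMod 2) : ℤ :=
  ∑ x : Fin n → ZMod 2, (-1 : ℤ) ^ (b ⬝ᵥ G x + a ⬝ᵥ x).val

/-- Every component `b·G`, `b ≠ 0`, is plateaued: its Walsh values lie in `{0, l, -l}` for some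
`l` that may depend on `b`. -/
def Plateaued {n : ℕ} (G : (Fin n → ZMod 2) → (Fin n → ZMod 2)) : Prop :=
  ∀ b : Fin n → ZMod 2, b ≠ 0 → ∃ l : ℤ, ∀ a : Fin n → ZMod 2,
    walsh G a b = 0 ∨ walsh G a b = l ∨ walsh G a b = -l

/-- An affine automorphism of `F₂ⁿ × F₂ⁿ` carries the graph of `H` onto the graph of `G`. -/
def CCZ {n : ℕ} (H G : (Fin n → ZMod 2) → (Fin n → ZMod 2)) : Prop :=
  ∃ A : ((Fin n → ZMod 2) × (Fin n → ZMod 2)) ≃ᵃ[ZMod 2] ((Fin n → ZMod 2) × (Fin n → ZMod 2)),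
    A '' {p | p.2 = H p.1} = {p | p.2 = G p.1}

end Pool.Agent.MP_942673_co
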