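import Pool.Agent.MP_942673_co.Defs

/-! Characters of `F₂ⁿ`, moments of the Walsh transform. -/

open Finset

namespace Pool.Agent.MP_942673_co

/-- the sign character of `ZMod 2` -/
def sg (t : ZMod 2) : ℤ := (-1 : ℤ) ^ t.val

theorem sg_zero : sg 0 = 1 := by simp [sg]

theorem sg_one : sg 1 = -1 := by
  have : (1 : ZMod 2).val = 1 := by decide
  simp [sg, this]

theorem z2_cases (t : ZMod 2) : t = 0 ∨ t = 1 := by
  revert t
  decide

theorem sg_add (s t : ZMod 2) : sg (s + t) = sg s * sg t := by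
  have h11 : (1 : ZMod 2) + 1 = 0 := by decide
  rcases z2_cases s with rfl | rfl <;> rcases z2_cases t with rfl | rfl <;>
    simp [sg_zero, sg_one, h11]

theorem sg_cases (t : ZMod 2) : sg t = 1 ∨ sg t = -1 := by
  rcases z2_cases t with rfl | rfl
  · exact Or.inl sg_zero
  · exact Or.inr sg_one

theorem one_add_sg (t : ZMod 2) : 1 + sg t = if t = 0 then 2 else 0 := by
  rcases z2_cases t with rfl | rfl
  · simp [sg_zero]
  · simp [sg_one]

variable {n : ℕ}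

theorem v_add_self (x : Fin n → ZMod 2) : x + x = 0 := by
  funext i
  exact CharTwo.add_self_eq_zero (x i)

theorem v_add_eq_zero {x y : Fin n → ZMod 2} : x + y = 0 ↔ x = y := by
  constructor
  · intro h
    have : x + y + y = y := by rw [h, zero_add]
    rwa [add_assoc, v_add_self, add_zero] at this
  · rintro rfl
    exact v_add_self x

theorem card_V : Fintype.card (Fin n → ZMod 2) = 2 ^ n := by
  simp [ZMod.card]

theorem sum_sg_dot (v : Fin n → ZMod 2) :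
    ∑ b : Fin n → ZMod 2, sg (b ⬝ᵥ v) = if v = 0 then 2 ^ n else 0 := by
  split_ifs with hv
  · subst hv
    simp [sg_zero, ZMod.card]
  · obtain ⟨i, hi⟩ : ∃ i, v i ≠ 0 := by
      by_contra h
      push Not at h
      exact hv (funext h)
    have hi1 : v i = 1 := (z2_cases (v i)).resolve_left hi
    have key : ∑ b : Fin n → ZMod 2, sg (b ⬝ᵥ v) =
        ∑ b : Fin n → ZMod 2, sg ((b + Pi.single i 1) ⬝ᵥ v) :=
      (Equiv.sum_comp (Equiv.addRight (Pi.single i (1 : ZMod 2) : Fin n → ZMod 2))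
        (fun b => sg (b ⬝ᵥ v))).symm
    have h2 : ∀ b : Fin n → ZMod 2, sg ((b + Pi.single i 1) ⬝ᵥ v) = -sg (b ⬝ᵥ v) := by
      intro b
      rw [add_dotProduct, single_dotProduct, one_mul, hi1, sg_add, sg_one]
      ring
    simp only [h2, Finset.sum_neg_distrib] at key
    linarith

theorem walsh_eq (G : (Fin n → ZMod 2) → (Fin n → ZMod 2)) (a b : Fin n → ZMod 2) :
    walsh G a b = ∑ x, sg (b ⬝ᵥ G x) * sg (a ⬝ᵥ x) := by
  simp only [walsh, ← sg_add]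
  rfl

/-- inversion formula -/
theorem walsh_inv (G : (Fin n → ZMod 2) → (Fin n → ZMod 2)) (b u : Fin n → ZMod 2) :
    ∑ a, walsh G a b * sg (a ⬝ᵥ u) = 2 ^ n * sg (b ⬝ᵥ G u) := by
  simp only [walsh_eq, Finset.sum_mul]
  rw [Finset.sum_comm]
  have h : ∀ x : Fin n → ZMod 2, ∑ a, sg (b ⬝ᵥ G x) * sg (a ⬝ᵥ x) * sg (a ⬝ᵥ u) =
      if x = u then 2 ^ n * sg (b ⬝ᵥ G u) else 0 := by
    intro x
    have h1 : ∀ a : Fin n → ZMod 2, sg (b ⬝ᵥ G x) * sg (a ⬝ᵥ x) * sg (a ⬝ᵥ u) =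
        sg (b ⬝ᵥ G x) * sg (a ⬝ᵥ (x + u)) := by
      intro a
      rw [dotProduct_add, sg_add, mul_assoc]
    simp only [h1, ← Finset.mul_sum, sum_sg_dot, v_add_eq_zero]
    split_ifs with h
    · rw [h, mul_comm]
    · simp
  simp only [h]
  simp

theorem sg_mul_self (t : ZMod 2) : sg t * sg t = 1 := by
  rcases sg_cases t with h | h <;> simp [h]

/-- Parseval -/
theorem walsh_parseval (G : (Fin n → ZMod 2) → (Fin n → ZMod 2)) (b : Fin n → ZMod 2) :
    ∑ a, walsh G a b ^ 2 = 2 ^ n * 2 ^ n := by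
  have h1 : ∀ a, walsh G a b ^ 2 = ∑ x, sg (b ⬝ᵥ G x) * (walsh G a b * sg (a ⬝ᵥ x)) := by
    intro a
    rw [pow_two]
    nth_rewrite 1 [walsh_eq]
    rw [Finset.sum_mul]
    exact Finset.sum_congr rfl fun x _ => by ring
  simp only [h1]
  rw [Finset.sum_comm]
  simp only [← Finset.mul_sum, walsh_inv]
  have h2 : ∀ x, sg (b ⬝ᵥ G x) * (2 ^ n * sg (b ⬝ᵥ G x)) = 2 ^ n := by
    intro x
    rw [mul_left_comm, sg_mul_self, mul_one]
  simp only [h2]
  simp [ZMod.card]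

/-- number of ordered triples of graph points with a prescribed sum -/
def tri (G : (Fin n → ZMod 2) → (Fin n → ZMod 2)) (x y : Fin n → ZMod 2) : ℕ :=
  (univ.filter fun t : (Fin n → ZMod 2) × (Fin n → ZMod 2) × (Fin n → ZMod 2) =>
    t.1 + t.2.1 + t.2.2 = x ∧ G t.1 + G t.2.1 + G t.2.2 = y).card

theorem walsh_cube (G : (Fin n → ZMod 2) → (Fin n → ZMod 2)) (a b : Fin n → ZMod 2) :
    walsh G a b ^ 3 = ∑ t : (Fin n → ZMod 2) × (Fin n → ZMod 2) × (Fin n → ZMod 2),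
      sg (b ⬝ᵥ (G t.1 + G t.2.1 + G t.2.2)) * sg (a ⬝ᵥ (t.1 + t.2.1 + t.2.2)) := by
  rw [pow_three, walsh_eq, Finset.sum_mul_sum, Finset.sum_mul, Fintype.sum_prod_type]
  refine Finset.sum_congr rfl fun x _ => ?_
  rw [Finset.mul_sum, Fintype.sum_prod_type]
  refine Finset.sum_congr rfl fun y _ => ?_
  rw [Finset.mul_sum]
  refine Finset.sum_congr rfl fun z _ => ?_
  simp only [dotProduct_add, sg_add]
  ring

theorem tri_eq (G : (Fin n → ZMod 2) → (Fin n → ZMod 2)) (x y : Fin n → ZMod 2) :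
    (2 ^ n * 2 ^ n : ℤ) * tri G x y =
      ∑ b, sg (b ⬝ᵥ y) * ∑ a, walsh G a b ^ 3 * sg (a ⬝ᵥ x) := by
  have h1 : ∀ b, sg (b ⬝ᵥ y) * ∑ a, walsh G a b ^ 3 * sg (a ⬝ᵥ x) =
      ∑ t : (Fin n → ZMod 2) × (Fin n → ZMod 2) × (Fin n → ZMod 2),
        sg (b ⬝ᵥ (G t.1 + G t.2.1 + G t.2.2 + y)) *
          (if t.1 + t.2.1 + t.2.2 = x then 2 ^ n else 0) := by
    intro b
    simp only [walsh_cube, Finset.sum_mul]
    rw [Finset.sum_comm, Finset.mul_sum]
    refine Finset.sum_congr rfl fun t _ => ?_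
    have h2 : ∀ a : Fin n → ZMod 2,
        sg (b ⬝ᵥ (G t.1 + G t.2.1 + G t.2.2)) * sg (a ⬝ᵥ (t.1 + t.2.1 + t.2.2)) * sg (a ⬝ᵥ x) =
          sg (b ⬝ᵥ (G t.1 + G t.2.1 + G t.2.2)) * sg (a ⬝ᵥ (t.1 + t.2.1 + t.2.2 + x)) := by
      intro a
      rw [dotProduct_add a _ x, sg_add, mul_assoc]
    simp only [h2, ← Finset.mul_sum, sum_sg_dot, v_add_eq_zero]
    rw [dotProduct_add b _ y, sg_add]
    ring
  simp only [h1]
  rw [Finset.sum_comm]
  simp only [← Finset.sum_mul, sum_sg_dot, v_add_eq_zero]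
  rw [tri, Finset.card_filter]
  push_cast
  rw [Finset.mul_sum]
  refine Finset.sum_congr rfl fun t _ => ?_
  by_cases h1 : t.1 + t.2.1 + t.2.2 = x <;> by_cases h2 : G t.1 + G t.2.1 + G t.2.2 = y <;>
    simp [h1, h2]

end Pool.Agent.MP_942673_co
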