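import Pool.Agent.MP_942673_co.Fourier

/-! Affine planes on which an APN function has a prescribed sum. -/

open Finset

namespace Pool.Agent.MP_942673_co

variable {n : ℕ}

theorem v_two : (2 : Fin n → ZMod 2) = 0 := by
  funext i
  exact CharTwo.two_eq_zero

theorem tri_apn {F : (Fin n → ZMod 2) → (Fin n → ZMod 2)}
    (hF : ∀ a, a ≠ 0 → ∀ b, (univ.filter fun x => F (x + a) + F x = b).card ≤ 2)
    (x : Fin n → ZMod 2) : (tri F x (F x) : ℤ) = 3 * 2 ^ n - 2 := by
  have h2 := v_two (n := n)
  have key : ∀ a b c : Fin n → ZMod 2, a + b + c = x → F a + F b + F c = F x →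
      a = x ∨ b = x ∨ c = x := by
    intro a b c h1 h3
    by_contra hne
    push Not at hne
    obtain ⟨ha, hb, hc⟩ := hne
    have hu : a + x ≠ 0 := fun h => ha (v_add_eq_zero.1 h)
    have hab : a ≠ b := by
      rintro rfl
      exact hc (by rw [← h1, v_add_self, zero_add])
    have hle := hF (a + x) hu (F a + F x)
    have e1 : x + (a + x) = a := by linear_combination x * h2
    have e2 : a + (a + x) = x := by linear_combination a * h2
    have e3 : b + (a + x) = c := by linear_combination h1 + (x - c) * h2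
    have hsub : ({x, a, b} : Finset _) ⊆ univ.filter fun y => F (y + (a + x)) + F y = F a + F x := by
      intro y hy
      simp only [mem_insert, mem_singleton] at hy
      rw [mem_filter]
      refine ⟨mem_univ _, ?_⟩
      rcases hy with rfl | rfl | rfl
      · rw [e1]
      · rw [e2, add_comm]
      · rw [e3]
        linear_combination h3 - F a * h2
    have h3c : ({x, a, b} : Finset _).card = 3 :=
      Finset.card_eq_three.2 ⟨x, a, b, ha.symm, hb.symm, hab, rfl⟩
    have := Finset.card_le_card hsub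
    omega
  have hind : ∀ a b c : Fin n → ZMod 2,
      (if a + b + c = x ∧ F a + F b + F c = F x then (1 : ℤ) else 0) =
        (if a = x then if b = c then 1 else 0 else 0) +
        (if b = x then if a = c then 1 else 0 else 0) +
        (if c = x then if a = b then 1 else 0 else 0) -
        2 * (if a = x then if b = x then if c = x then 1 else 0 else 0 else 0) := by
    intro a b c
    by_cases h : a + b + c = x ∧ F a + F b + F c = F x
    · rw [if_pos h]
      rcases key a b c h.1 h.2 with rfl | rfl | rfl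
      · obtain rfl : b = c := v_add_eq_zero.1 (by linear_combination h.1)
        by_cases hb : b = a
        · simp [hb]
        · simp [hb]
      · obtain rfl : a = c := v_add_eq_zero.1 (by linear_combination h.1)
        by_cases hb : a = b
        · simp [hb]
        · simp [hb]
      · obtain rfl : a = b := v_add_eq_zero.1 (by linear_combination h.1)
        by_cases hb : a = c
        · simp [hb]
        · simp [hb]
    · rw [if_neg h]
      have h1 : ¬(a = x ∧ b = c) := by
        rintro ⟨rfl, rfl⟩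
        exact h ⟨by rw [add_assoc, v_add_self, add_zero], by rw [add_assoc, v_add_self, add_zero]⟩
      have h3 : ¬(b = x ∧ a = c) := by
        rintro ⟨rfl, rfl⟩
        exact h ⟨by linear_combination a * h2, by linear_combination F a * h2⟩
      have h4 : ¬(c = x ∧ a = b) := by
        rintro ⟨rfl, rfl⟩
        exact h ⟨by rw [v_add_self, zero_add], by rw [v_add_self, zero_add]⟩
      have h5 : ¬(a = x ∧ b = x ∧ c = x) := fun h => h1 ⟨h.1, h.2.1.trans h.2.2.symm⟩
      simp only [← ite_and, if_neg h1, if_neg h3, if_neg h4, if_neg h5]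
      simp
  rw [tri, Finset.card_filter]
  push_cast
  simp only [Fintype.sum_prod_type, hind, Finset.sum_add_distrib, Finset.sum_sub_distrib,
    ← Finset.mul_sum]
  simp [ZMod.card]
  ring

/-- the affine planes on which `F` sums to `s` -/
def planes (F : (Fin n → ZMod 2) → (Fin n → ZMod 2)) (s : Fin n → ZMod 2) :
    Finset (Finset (Fin n → ZMod 2)) :=
  (powersetCard 4 univ).filter fun P => ∑ y ∈ P, y = 0 ∧ ∑ y ∈ P, F y = s

theorem tri_planes (F : (Fin n → ZMod 2) → (Fin n → ZMod 2)) {s : Fin n → ZMod 2} (hs : s ≠ 0)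
    (x : Fin n → ZMod 2) :
    tri F x (F x + s) = 6 * ((planes F s).filter fun P => x ∈ P).card := by
  have h2 := v_two (n := n)
  have hdist : ∀ a b c : Fin n → ZMod 2, a + b + c = x → F a + F b + F c = F x + s →
      x ≠ a ∧ x ≠ b ∧ x ≠ c ∧ a ≠ b ∧ a ≠ c ∧ b ≠ c := by
    intro a b c h1 h3
    refine ⟨?_, ?_, ?_, ?_, ?_, ?_⟩
    · rintro rfl
      obtain rfl : b = c := v_add_eq_zero.1 (by linear_combination h1)
      exact hs (by linear_combination -h3 + F b * h2)
    · rintro rfl
      obtain rfl : a = c := v_add_eq_zero.1 (by linear_combination h1)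
      exact hs (by linear_combination -h3 + F a * h2)
    · rintro rfl
      obtain rfl : a = b := v_add_eq_zero.1 (by linear_combination h1)
      exact hs (by linear_combination -h3 + F a * h2)
    · rintro rfl
      obtain rfl : c = x := by linear_combination h1 - a * h2
      exact hs (by linear_combination -h3 + F a * h2)
    · rintro rfl
      obtain rfl : b = x := by linear_combination h1 - a * h2
      exact hs (by linear_combination -h3 + F a * h2)
    · rintro rfl
      obtain rfl : a = x := by linear_combination h1 - b * h2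
      exact hs (by linear_combination -h3 + F b * h2)
  have hsum : ∀ (g : (Fin n → ZMod 2) → (Fin n → ZMod 2)) (a b c : Fin n → ZMod 2),
      x ≠ a ∧ x ≠ b ∧ x ≠ c ∧ a ≠ b ∧ a ≠ c ∧ b ≠ c →
        ∑ y ∈ ({x, a, b, c} : Finset _), g y = g x + (g a + (g b + g c)) := by
    rintro g a b c ⟨h1, h3, h4, h5, h6, h7⟩
    rw [sum_insert (by simp [h1, h3, h4]), sum_insert (by simp [h5, h6]), sum_pair h7]
  have hcard : ∀ a b c : Fin n → ZMod 2, x ≠ a ∧ x ≠ b ∧ x ≠ c ∧ a ≠ b ∧ a ≠ c ∧ b ≠ c →
      ({x, a, b, c} : Finset _).card = 4 := by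
    rintro a b c ⟨h1, h3, h4, h5, h6, h7⟩
    rw [card_insert_of_notMem (by simp [h1, h3, h4]), card_insert_of_notMem (by simp [h5, h6]),
      card_pair h7]
  rw [tri, Finset.card_eq_sum_card_fiberwise (f := fun t => ({x, t.1, t.2.1, t.2.2} : Finset _))
    (t := (planes F s).filter fun P => x ∈ P), mul_comm, ← smul_eq_mul, ← Finset.sum_const]
  · refine Finset.sum_congr rfl fun P hP => ?_
    simp only [planes, mem_filter, mem_powersetCard] at hP
    obtain ⟨⟨⟨-, hP4⟩, hP0, hPs⟩, hx⟩ := hP
    have h6 : (P.erase x).offDiag.card = 6 := by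
      rw [Finset.offDiag_card, card_erase_of_mem hx, hP4]
    rw [← h6]
    refine Finset.card_bij (fun t _ => (t.1, t.2.1)) ?_ ?_ ?_
    · rintro ⟨a, b, c⟩ ht
      simp only [mem_filter, mem_univ, true_and] at ht
      obtain ⟨⟨h1, h3⟩, rfl⟩ := ht
      obtain ⟨e1, e2, -, e4, -, -⟩ := hdist a b c h1 h3
      simp [mem_offDiag, e1.symm, e2.symm, e4]
    · rintro ⟨a, b, c⟩ ht ⟨a', b', c'⟩ ht' he
      simp only [mem_filter, mem_univ, true_and] at ht ht'
      simp only [Prod.mk.injEq] at he ⊢
      obtain ⟨rfl, rfl⟩ := he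
      exact ⟨rfl, rfl, add_left_cancel (ht.1.1.trans ht'.1.1.symm)⟩
    · rintro ⟨a, b⟩ hab
      simp only [mem_offDiag, mem_erase] at hab
      obtain ⟨⟨ha, haP⟩, ⟨hb, hbP⟩, hab⟩ := hab
      have hc1 : (((P.erase x).erase a).erase b).card = 1 := by
        rw [card_erase_of_mem (by simp [hab.symm, hb, hbP]), card_erase_of_mem (by simp [ha, haP]),
          card_erase_of_mem hx, hP4]
      obtain ⟨c, hc⟩ := card_eq_one.1 hc1
      have hcm : c ∈ ((P.erase x).erase a).erase b := by rw [hc]; exact mem_singleton_self c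
      simp only [mem_erase] at hcm
      have hd : x ≠ a ∧ x ≠ b ∧ x ≠ c ∧ a ≠ b ∧ a ≠ c ∧ b ≠ c :=
        ⟨ha.symm, hb.symm, hcm.2.2.1.symm, hab, hcm.2.1.symm, hcm.1.symm⟩
      have hPe : ({x, a, b, c} : Finset _) = P := by
        refine Finset.eq_of_subset_of_card_le ?_ (by rw [hP4, hcard a b c hd])
        intro y hy
        simp only [mem_insert, mem_singleton] at hy
        rcases hy with rfl | rfl | rfl | rfl
        exacts [hx, haP, hbP, hcm.2.2.2]
      rw [← hPe, hsum (fun y => y) a b c hd] at hP0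
      rw [← hPe, hsum F a b c hd] at hPs
      refine ⟨(a, b, c), ?_, rfl⟩
      simp only [mem_filter, mem_univ, true_and]
      exact ⟨⟨by linear_combination hP0 - x * h2, by linear_combination hPs - F x * h2⟩, hPe⟩
  · rintro ⟨a, b, c⟩ ht
    simp only [coe_filter, mem_univ, true_and, Set.mem_ofPred_eq] at ht
    have hd := hdist a b c ht.1 ht.2
    simp only [planes, coe_filter, mem_filter, mem_powersetCard, Set.mem_ofPred_eq]
    refine ⟨⟨⟨subset_univ _, hcard a b c hd⟩, ?_, ?_⟩, mem_insert_self _ _⟩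
    · rw [hsum (fun y => y) a b c hd]
      linear_combination ht.1 + x * h2
    · rw [hsum F a b c hd]
      linear_combination ht.2 + F x * h2

/-- The parity argument: the two congruences force the values of `F` to sum to zero. -/
theorem sum_eq_zero_of_congr (hn : 3 ≤ n) {F : (Fin n → ZMod 2) → (Fin n → ZMod 2)}
    (hF : ∀ x, (tri F x (F x) : ℤ) = 3 * 2 ^ n - 2)
    {s : Fin n → ZMod 2} (hs : s ≠ 0)
    (h4 : ∀ x, (4 : ℤ) ∣ tri F x (F x) + tri F x (F x + s))
    (h16 : (16 : ℤ) ∣ ∑ x, ((tri F x (F x) : ℤ) + tri F x (F x + s))) : ∑ x, F x = 0 := by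
  obtain ⟨m, hm⟩ : ∃ m : (Fin n → ZMod 2) → ℕ,
      ∀ x, m x = ((planes F s).filter fun P => x ∈ P).card := ⟨_, fun _ => rfl⟩
  obtain ⟨k, rfl⟩ : ∃ k, n = k + 3 := ⟨n - 3, by omega⟩
  have hpow : (2 : ℤ) ^ (k + 3) = 8 * 2 ^ k := by ring
  simp only [hF, tri_planes F hs, ← hm, hpow] at h4 h16
  push_cast at h4 h16
  have hodd : ∀ x, Odd (m x) := by
    intro x
    have := h4 x
    rw [Nat.odd_iff]
    omega
  have hdc : ∀ {M : Type} [AddCommMonoid M] (g : (Fin (k + 3) → ZMod 2) → M),
      ∑ x, m x • g x = ∑ P ∈ planes F s, ∑ x ∈ P, g x := by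
    intro M _ g
    simp only [hm, Finset.card_filter, Finset.sum_smul]
    rw [Finset.sum_comm]
    refine Finset.sum_congr rfl fun P _ => ?_
    simp [ite_smul]
  have hc : ∑ x, (m x : ℤ) = 4 * (planes F s).card := by
    have := hdc (fun _ => (1 : ℤ))
    simp only [nsmul_eq_mul, mul_one] at this
    rw [this, Finset.sum_congr rfl (g := fun _ => (4 : ℤ))]
    · simp [mul_comm]
    · intro P hP
      simp only [planes, mem_filter, mem_powersetCard] at hP
      simp [hP.1.2]
  have hev : Even (planes F s).card := by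
    rw [Finset.sum_add_distrib, ← Finset.mul_sum, hc, Finset.sum_const, Finset.card_univ, card_V,
      nsmul_eq_mul] at h16
    push_cast at h16
    rw [hpow, show (8 : ℤ) * 2 ^ k * (3 * (8 * 2 ^ k) - 2) =
      16 * (2 ^ k * (12 * 2 ^ k - 1)) by ring] at h16
    rw [Nat.even_iff]
    omega
  have h1 : ∀ x, m x • F x = F x := by
    intro x
    obtain ⟨j, hj⟩ := hodd x
    rw [hj, add_smul, one_smul, mul_smul, two_smul, v_add_self, zero_add]
  have h3 := hdc F
  simp only [h1] at h3
  rw [h3, Finset.sum_congr rfl (g := fun _ => s)]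
  · obtain ⟨j, hj⟩ := hev
    rw [Finset.sum_const, hj, add_smul, v_add_self]
  · intro P hP
    simp only [planes, mem_filter] at hP
    exact hP.2.2

/-- A coordinate of degree `n` has odd weight. -/
theorem sum_eval_ne_zero (hn : 1 ≤ n) {P : MvPolynomial (Fin n) (ZMod 2)}
    (h1 : ∀ j, MvPolynomial.degreeOf j P ≤ 1) (hd : P.totalDegree = n) :
    ∑ x : Fin n → ZMod 2, MvPolynomial.eval x P ≠ 0 := by
  have hle : ∀ d ∈ P.support, ∀ j, d j ≤ 1 := fun d hd j =>
    (MvPolynomial.monomial_le_degreeOf j hd).trans (h1 j)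
  have hne : P.support.Nonempty := by
    rw [MvPolynomial.support_nonempty]
    rintro rfl
    rw [MvPolynomial.totalDegree_zero] at hd
    omega
  obtain ⟨d₀, hd₀, hs⟩ := Finset.exists_mem_eq_sup P.support hne fun s => s.sum fun _ e => e
  have hone : ∀ j, d₀ j = 1 := by
    have e1 : ∑ j, d₀ j = n := by
      rw [MvPolynomial.totalDegree, hs, Finsupp.sum_fintype _ _ fun _ => rfl] at hd
      exact hd
    have e2 : ∑ j, d₀ j = ∑ _j : Fin n, 1 := by simp [e1]
    exact fun j => (Finset.sum_eq_sum_iff_of_le fun j _ => hle d₀ hd₀ j).1 e2 j (mem_univ j)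
  have hpow : ∀ e : ℕ, ∑ t : ZMod 2, t ^ e = if e = 0 then 0 else 1 := by
    intro e
    have : (univ : Finset (ZMod 2)) = {0, 1} := by decide
    rw [this, sum_pair (by decide)]
    split_ifs with h
    · subst h
      decide
    · simp [h]
  simp only [MvPolynomial.eval_eq']
  rw [Finset.sum_comm]
  simp only [← Finset.mul_sum]
  have h2 : ∀ d : Fin n →₀ ℕ, ∑ x : Fin n → ZMod 2, ∏ i, x i ^ d i =
      ∏ i, if d i = 0 then (0 : ZMod 2) else 1 := by
    intro d
    simp only [← hpow]
    rw [Finset.prod_univ_sum]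
    simp
  simp only [h2]
  rw [Finset.sum_eq_single_of_mem d₀ hd₀]
  · simp only [hone, one_ne_zero, if_false, Finset.prod_const_one, mul_one]
    exact MvPolynomial.mem_support_iff.1 hd₀
  · intro d hd hne
    obtain ⟨j, hj⟩ : ∃ j, d j ≠ d₀ j := by
      by_contra h
      push Not at h
      exact hne (Finsupp.ext h)
    have h0 : d j = 0 := by
      have := hle d hd j
      rw [hone] at hj
      omega
    rw [Finset.prod_eq_zero (mem_univ j) (by simp [h0]), mul_zero]

end Pool.Agent.MP_942673_co
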