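import Pool.Agent.MP_942673_co.Fourier

/-! Parity properties of triple counts on the graph of a plateaued function. -/

open Finset

namespace Pool.Agent.MP_942673_co

variable {n : ℕ}

theorem plat_struct {H : (Fin n → ZMod 2) → (Fin n → ZMod 2)} (hH : Plateaued H)
    (b : Fin n → ZMod 2) : ∃ (k j : ℕ) (t : (Fin n → ZMod 2) → ℤ), 2 * k = n + j ∧
      ∀ a, walsh H a b = 2 ^ k * t a ∧ (t a = 0 ∨ t a = 1 ∨ t a = -1) := by
  have key : ∃ k : ℕ, n ≤ 2 * k ∧
      ∀ a, walsh H a b = 0 ∨ walsh H a b = 2 ^ k ∨ walsh H a b = -2 ^ k := by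
    by_cases hb : b = 0
    · refine ⟨n, by omega, fun a => ?_⟩
      subst hb
      have : walsh H a 0 = if a = 0 then 2 ^ n else 0 := by
        rw [walsh_eq, ← sum_sg_dot a]
        refine Finset.sum_congr rfl fun x _ => ?_
        rw [zero_dotProduct, sg_zero, one_mul, dotProduct_comm]
      rw [this]
      split_ifs <;> simp
    · obtain ⟨l, hl⟩ := hH b hb
      have hP := walsh_parseval H b
      have h1 : ∀ a, walsh H a b ^ 2 = l ^ 2 * (if walsh H a b = 0 then 0 else 1) := by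
        intro a
        split_ifs with h
        · simp [h]
        · rcases hl a with h' | h' | h'
          · exact absurd h' h
          · rw [h']; ring
          · rw [h']; ring
      have hd : l ∣ 2 ^ (n + n) := by
        rw [pow_add, ← hP]
        refine Finset.dvd_sum fun a _ => ?_
        rw [h1]
        exact Dvd.dvd.mul_right (dvd_pow_self l two_ne_zero) _
      have hd' : l.natAbs ∣ 2 ^ (n + n) := by
        have := Int.natAbs_dvd_natAbs.2 hd
        simpa [Int.natAbs_pow] using this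
      obtain ⟨k, -, hk⟩ := (Nat.dvd_prime_pow Nat.prime_two).1 hd'
      have hl2 : l = 2 ^ k ∨ l = -2 ^ k := by
        rcases Int.natAbs_eq l with h | h
        · left; rw [h, hk]; simp
        · right; rw [h, hk]; simp
      have hsq : l ^ 2 = 2 ^ (2 * k) := by
        rcases hl2 with h | h <;> rw [h] <;> ring
      refine ⟨k, ?_, fun a => ?_⟩
      · have hle : ∑ a, walsh H a b ^ 2 ≤ ∑ _a : Fin n → ZMod 2, (2 : ℤ) ^ (2 * k) := by
          refine Finset.sum_le_sum fun a _ => ?_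
          rw [h1, hsq]
          split_ifs <;> simp
        rw [hP] at hle
        simp only [Finset.sum_const, Finset.card_univ, card_V, nsmul_eq_mul] at hle
        push_cast at hle
        have h2 : (2 : ℤ) ^ n ≤ 2 ^ (2 * k) := le_of_mul_le_mul_left hle (by positivity)
        exact (pow_le_pow_iff_right₀ (by norm_num)).1 h2
      · rcases hl a with h | h | h <;> rcases hl2 with h' | h' <;> simp [h, h']
  obtain ⟨k, hk, hw⟩ := key
  refine ⟨k, 2 * k - n, fun a => if walsh H a b = 0 then 0 else if walsh H a b = 2 ^ k then 1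
    else -1, by omega, fun a => ⟨?_, ?_⟩⟩
  · dsimp only
    split_ifs with h1 h2
    · simp [h1]
    · simp [h2]
    · rcases hw a with h | h | h
      · exact absurd h h1
      · exact absurd h h2
      · simp [h]
  · dsimp only
    split_ifs <;> simp

section

variable {H : (Fin n → ZMod 2) → (Fin n → ZMod 2)} {k j : (Fin n → ZMod 2) → ℕ}
  {t : (Fin n → ZMod 2) → (Fin n → ZMod 2) → ℤ}

theorem tri_plat (hkj : ∀ b, 2 * k b = n + j b)
    (ht : ∀ b a, walsh H a b = 2 ^ k b * t b a ∧ (t b a = 0 ∨ t b a = 1 ∨ t b a = -1))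
    (x y : Fin n → ZMod 2) : (tri H x y : ℤ) = ∑ b, 2 ^ j b * sg (b ⬝ᵥ (y + H x)) := by
  have h := tri_eq H x y
  have h1 : ∀ b a, walsh H a b ^ 3 = 2 ^ n * 2 ^ j b * walsh H a b := by
    intro b a
    obtain ⟨h1, h2⟩ := ht b a
    rw [h1, ← pow_add, ← hkj b]
    rcases h2 with h | h | h <;> rw [h] <;> ring
  have h2 : ∀ b, sg (b ⬝ᵥ y) * ∑ a, walsh H a b ^ 3 * sg (a ⬝ᵥ x) =
      (2 ^ n * 2 ^ n) * (2 ^ j b * sg (b ⬝ᵥ (y + H x))) := by
    intro b
    simp only [h1, mul_assoc, ← Finset.mul_sum, walsh_inv, dotProduct_add, sg_add]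
    ring
  simp only [h2, ← Finset.mul_sum] at h
  exact mul_left_cancel₀ (by positivity) h

theorem bent_full (hkj : ∀ b, 2 * k b = n + j b)
    (ht : ∀ b a, walsh H a b = 2 ^ k b * t b a ∧ (t b a = 0 ∨ t b a = 1 ∨ t b a = -1))
    {b : Fin n → ZMod 2} (hb : j b = 0) (a : Fin n → ZMod 2) : t b a ^ 2 = 1 := by
  have hP := walsh_parseval H b
  have h1 : ∀ a, walsh H a b ^ 2 = 2 ^ n * t b a ^ 2 := by
    intro a
    have := hkj b
    rw [(ht b a).1, mul_pow, ← pow_mul, mul_comm (k b) 2, this, hb, add_zero]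
  simp only [h1, ← Finset.mul_sum] at hP
  have h2 : ∑ a, t b a ^ 2 = 2 ^ n := mul_left_cancel₀ (by positivity) hP
  have h3 : ∑ a, (1 - t b a ^ 2) = 0 := by
    rw [Finset.sum_sub_distrib, h2]
    simp [ZMod.card]
  have h4 : ∀ a ∈ (univ : Finset (Fin n → ZMod 2)), 0 ≤ 1 - t b a ^ 2 := by
    intro a _
    rcases (ht b a).2 with h | h | h <;> simp [h]
  have := (Finset.sum_eq_zero_iff_of_nonneg h4).1 h3 a (mem_univ a)
  linarith

theorem two_dvd_one_add_sg (c : ZMod 2) : (2 : ℤ) ∣ 1 + sg c := by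
  rcases sg_cases c with h | h <;> simp [h]

/-- the weighted number of components orthogonal to `v` is even -/
theorem four_dvd_plat (hn : 3 ≤ n) (hkj : ∀ b, 2 * k b = n + j b)
    (ht : ∀ b a, walsh H a b = 2 ^ k b * t b a ∧ (t b a = 0 ∨ t b a = 1 ∨ t b a = -1))
    (v : Fin n → ZMod 2) : (4 : ℤ) ∣ ∑ b, 2 ^ j b * (1 + sg (b ⬝ᵥ v)) := by
  have hev : ∀ b, j b ≠ 0 → (2 : ℤ) ∣ 2 ^ j b := fun b hb => dvd_pow_self 2 hb
  rcases Nat.even_or_odd' n with ⟨h, hh | hh⟩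
  · -- even dimension
    have hk : ∀ b, ∃ i, k b = h + i ∧ j b = 2 * i := fun b =>
      ⟨k b - h, by have := hkj b; omega, by have := hkj b; omega⟩
    choose i hi using hk
    have hsum : (2 : ℤ) ^ n ∣ ∑ b, walsh H 0 b * (1 + sg (b ⬝ᵥ v)) := by
      simp only [walsh_eq, Finset.sum_mul]
      rw [Finset.sum_comm]
      refine Finset.dvd_sum fun x _ => ?_
      have : ∀ b : Fin n → ZMod 2, sg (b ⬝ᵥ H x) * sg (0 ⬝ᵥ x) * (1 + sg (b ⬝ᵥ v)) =
          sg (b ⬝ᵥ H x) + sg (b ⬝ᵥ (H x + v)) := by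
        intro b
        rw [zero_dotProduct, sg_zero, dotProduct_add, sg_add]
        ring
      simp only [this, Finset.sum_add_distrib, sum_sg_dot]
      refine dvd_add ?_ ?_ <;> split_ifs <;> simp
    have h1 : ∀ b, walsh H 0 b * (1 + sg (b ⬝ᵥ v)) =
        2 ^ h * (2 ^ i b * t b 0 * (1 + sg (b ⬝ᵥ v))) := by
      intro b
      rw [(ht b 0).1, (hi b).1]
      ring
    simp only [h1, ← Finset.mul_sum] at hsum
    have hpow : (2 : ℤ) ^ n = 2 ^ h * 2 ^ h := by rw [← pow_add, ← two_mul, ← hh]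
    rw [hpow] at hsum
    have h2 := (mul_dvd_mul_iff_left (by positivity : (2 : ℤ) ^ h ≠ 0)).1 hsum
    have h3 : (4 : ℤ) ∣ 2 ^ h := by
      obtain ⟨h', rfl⟩ : ∃ h', h = h' + 2 := ⟨h - 2, by omega⟩
      exact Dvd.intro_left (2 ^ h') (by ring)
    have h4 := h3.trans h2
    have h5 : (4 : ℤ) ∣ ∑ b, (2 ^ j b * (1 + sg (b ⬝ᵥ v)) -
        2 ^ i b * t b 0 * (1 + sg (b ⬝ᵥ v))) := by
      refine Finset.dvd_sum fun b _ => ?_
      rw [← sub_mul]
      refine mul_dvd_mul (a := 2) (c := 2) ?_ (two_dvd_one_add_sg _)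
      by_cases hb : j b = 0
      · have hi0 : i b = 0 := by have := (hi b).2; omega
        have := bent_full hkj ht hb 0
        rw [hb, hi0]
        rcases (ht b 0).2 with h | h | h <;> simp [h] at this ⊢
      · have hi0 : i b ≠ 0 := by have := (hi b).2; omega
        exact dvd_sub (hev b hb) (Dvd.dvd.mul_right (dvd_pow_self 2 hi0) _)
    rw [Finset.sum_sub_distrib] at h5
    simpa using dvd_add h5 h4
  · refine Finset.dvd_sum fun b _ => ?_
    exact mul_dvd_mul (a := 2) (c := 2) (hev b (by have := hkj b; omega)) (two_dvd_one_add_sg _)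

theorem autocorr (H : (Fin n → ZMod 2) → (Fin n → ZMod 2)) (b u : Fin n → ZMod 2) :
    ∑ a, walsh H a b ^ 2 * sg (a ⬝ᵥ u) = 2 ^ n * ∑ x, sg (b ⬝ᵥ (H x + H (x + u))) := by
  have h1 : ∀ a, walsh H a b ^ 2 * sg (a ⬝ᵥ u) =
      ∑ x, sg (b ⬝ᵥ H x) * (walsh H a b * sg (a ⬝ᵥ (x + u))) := by
    intro a
    rw [pow_two]
    nth_rewrite 1 [walsh_eq]
    rw [Finset.sum_mul, Finset.sum_mul]
    refine Finset.sum_congr rfl fun x _ => ?_
    rw [dotProduct_add, sg_add]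
    ring
  simp only [h1]
  rw [Finset.sum_comm, Finset.mul_sum]
  refine Finset.sum_congr rfl fun x _ => ?_
  rw [← Finset.mul_sum, walsh_inv, dotProduct_add, sg_add]
  ring

theorem sixteen_dvd_plat (hn : 3 ≤ n) (hkj : ∀ b, 2 * k b = n + j b)
    (ht : ∀ b a, walsh H a b = 2 ^ k b * t b a ∧ (t b a = 0 ∨ t b a = 1 ∨ t b a = -1))
    (w₁ w₂ b : Fin n → ZMod 2) :
    (16 : ℤ) ∣ 2 ^ j b * ∑ x, (1 + sg (b ⬝ᵥ (H x + w₂ + H (x + w₁)))) := by
  obtain ⟨E, hE⟩ : ∃ E : ℤ, E = ∑ a, t b a ^ 2 * (1 + sg (b ⬝ᵥ w₂) * sg (a ⬝ᵥ w₁)) := ⟨_, rfl⟩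
  have hsq : ∀ a, walsh H a b ^ 2 = 2 ^ n * 2 ^ j b * t b a ^ 2 := by
    intro a
    rw [(ht b a).1, mul_pow, ← pow_mul, mul_comm (k b) 2, hkj b, pow_add]
  have hR : ∑ x, (1 + sg (b ⬝ᵥ (H x + w₂ + H (x + w₁)))) = 2 ^ j b * E := by
    have h1 := autocorr H b w₁
    have h2 := walsh_parseval H b
    have h3 : ∀ x, sg (b ⬝ᵥ (H x + w₂ + H (x + w₁))) =
        sg (b ⬝ᵥ w₂) * sg (b ⬝ᵥ (H x + H (x + w₁))) := by
      intro x
      simp only [dotProduct_add, sg_add]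
      ring
    have h4 : (2 : ℤ) ^ n * (2 ^ j b * E) =
        ∑ a, walsh H a b ^ 2 + sg (b ⬝ᵥ w₂) * ∑ a, walsh H a b ^ 2 * sg (a ⬝ᵥ w₁) := by
      rw [hE, Finset.mul_sum, Finset.mul_sum, Finset.mul_sum, ← Finset.sum_add_distrib]
      refine Finset.sum_congr rfl fun a _ => ?_
      rw [hsq]
      ring
    refine mul_left_cancel₀ (by positivity : (2 : ℤ) ^ n ≠ 0) ?_
    rw [h4, h1, h2]
    simp only [h3, Finset.sum_add_distrib, ← Finset.mul_sum]
    simp [ZMod.card]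
    ring
  rw [hR, ← mul_assoc]
  have hkb := hkj b
  rcases (by omega : j b = 0 ∨ j b = 1 ∨ 2 ≤ j b) with hj | hj | hj
  · have h1 : E = 2 ^ n + sg (b ⬝ᵥ w₂) * (if w₁ = 0 then 2 ^ n else 0) := by
      rw [hE]
      simp only [bent_full hkj ht hj, one_mul, Finset.sum_add_distrib, ← Finset.mul_sum,
        sum_sg_dot]
      simp [ZMod.card]
    have h2 : (16 : ℤ) ∣ 2 ^ n := by
      obtain ⟨n', hn'⟩ : ∃ n', n = n' + 4 := ⟨n - 4, by omega⟩
      rw [hn']
      exact Dvd.intro_left (2 ^ n') (by ring)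
    refine Dvd.dvd.mul_left ?_ _
    rw [h1]
    refine dvd_add h2 (Dvd.dvd.mul_left ?_ _)
    split_ifs
    · exact h2
    · simp
  · obtain ⟨h, hh⟩ : ∃ h, n = k b + (h + 1) := ⟨n - k b - 1, by omega⟩
    have h1 : ∑ a, walsh H a b * (1 + sg (b ⬝ᵥ w₂) * sg (a ⬝ᵥ w₁)) =
        2 ^ n * (sg (b ⬝ᵥ H 0) + sg (b ⬝ᵥ w₂) * sg (b ⬝ᵥ H w₁)) := by
      have e0 := walsh_inv H b 0
      have e1 := walsh_inv H b w₁
      simp only [dotProduct_zero, sg_zero, mul_one] at e0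
      rw [mul_add, ← e0, mul_left_comm, ← e1, Finset.mul_sum, ← Finset.sum_add_distrib]
      exact Finset.sum_congr rfl fun a _ => by ring
    have h2 : (2 : ℤ) ∣ sg (b ⬝ᵥ H 0) + sg (b ⬝ᵥ w₂) * sg (b ⬝ᵥ H w₁) := by
      rw [← sg_add]
      rcases sg_cases (b ⬝ᵥ H 0) with h | h <;>
        rcases sg_cases (b ⬝ᵥ w₂ + b ⬝ᵥ H w₁) with h' | h' <;> simp [h, h']
    obtain ⟨d, hd⟩ := h2
    have h3 : ∑ a, t b a * (1 + sg (b ⬝ᵥ w₂) * sg (a ⬝ᵥ w₁)) = 4 * (2 ^ h * d) := by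
      refine mul_left_cancel₀ (by positivity : (2 : ℤ) ^ k b ≠ 0) ?_
      rw [Finset.mul_sum]
      have : ∀ a, 2 ^ k b * (t b a * (1 + sg (b ⬝ᵥ w₂) * sg (a ⬝ᵥ w₁))) =
          walsh H a b * (1 + sg (b ⬝ᵥ w₂) * sg (a ⬝ᵥ w₁)) := by
        intro a
        rw [(ht b a).1]
        ring
      simp only [this]
      rw [h1, hd]
      nth_rewrite 1 [hh]
      ring
    have h4 : (4 : ℤ) ∣ E - ∑ a, t b a * (1 + sg (b ⬝ᵥ w₂) * sg (a ⬝ᵥ w₁)) := by
      rw [hE, ← Finset.sum_sub_distrib]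
      refine Finset.dvd_sum fun a _ => ?_
      rw [← sub_mul, ← sg_add]
      refine mul_dvd_mul (a := 2) (c := 2) ?_ (two_dvd_one_add_sg _)
      rcases (ht b a).2 with h | h | h <;> simp [h]
    rw [h3] at h4
    have h5 : (4 : ℤ) ∣ E := by simpa using dvd_add h4 (Dvd.intro (2 ^ h * d) rfl)
    rw [hj]
    obtain ⟨E', hE'⟩ := h5
    rw [hE']
    exact Dvd.intro E' (by ring)
  · obtain ⟨i, hi⟩ : ∃ i, j b = i + 2 := ⟨j b - 2, by omega⟩
    rw [hi]
    exact Dvd.dvd.mul_right (Dvd.intro (2 ^ i * 2 ^ i) (by ring)) _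

end

/-- The two congruences for the graph of a plateaued function, modulo a translation `w`. -/
theorem plat_congr (hn : 3 ≤ n) {H : (Fin n → ZMod 2) → (Fin n → ZMod 2)} (hH : Plateaued H)
    (w₁ w₂ : Fin n → ZMod 2) :
    (∀ x, (4 : ℤ) ∣ tri H x (H x) + tri H (x + w₁) (H x + w₂)) ∧
      (16 : ℤ) ∣ ∑ x, ((tri H x (H x) : ℤ) + tri H (x + w₁) (H x + w₂)) := by
  choose k j t hkj ht using plat_struct hH
  have h1 : ∀ x, (tri H x (H x) : ℤ) + tri H (x + w₁) (H x + w₂) =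
      ∑ b, 2 ^ j b * (1 + sg (b ⬝ᵥ (H x + w₂ + H (x + w₁)))) := by
    intro x
    rw [tri_plat hkj ht, tri_plat hkj ht, ← Finset.sum_add_distrib]
    refine Finset.sum_congr rfl fun b _ => ?_
    rw [v_add_self, dotProduct_zero, sg_zero]
    ring
  simp only [h1]
  refine ⟨fun x => four_dvd_plat hn hkj ht _, ?_⟩
  rw [Finset.sum_comm]
  refine Finset.dvd_sum fun b _ => ?_
  rw [← Finset.mul_sum]
  exact sixteen_dvd_plat hn hkj ht w₁ w₂ b

end Pool.Agent.MP_942673_co
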