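import Pool.Agent.MP_942673_co.Plat
import Pool.Agent.MP_942673_co.Planes

/-! Transport of triple counts along CCZ-equivalence and switching. -/

open Finset

namespace Pool.Agent.MP_942673_co

variable {n : ℕ}

theorem e_add_self (p : (Fin n → ZMod 2) × (Fin n → ZMod 2)) : p + p = 0 :=
  Prod.ext (v_add_self _) (v_add_self _)

theorem aff_add (A : ((Fin n → ZMod 2) × (Fin n → ZMod 2)) ≃ᵃ[ZMod 2]
    ((Fin n → ZMod 2) × (Fin n → ZMod 2))) (p q : (Fin n → ZMod 2) × (Fin n → ZMod 2)) :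
    A (p + q) = A.linear p + A q := A.map_vadd q p

theorem aff_three (A : ((Fin n → ZMod 2) × (Fin n → ZMod 2)) ≃ᵃ[ZMod 2]
    ((Fin n → ZMod 2) × (Fin n → ZMod 2))) (p q r : (Fin n → ZMod 2) × (Fin n → ZMod 2)) :
    A (p + q + r) = A p + A q + A r := by
  have h1 := aff_add A p 0
  have h2 := aff_add A q 0
  rw [add_zero] at h1 h2
  rw [aff_add, map_add, h1, h2, add_add_add_comm, e_add_self, add_zero]

theorem ccz_data {H G : (Fin n → ZMod 2) → (Fin n → ZMod 2)} (h : CCZ H G) :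
    ∃ (A : ((Fin n → ZMod 2) × (Fin n → ZMod 2)) ≃ᵃ[ZMod 2]
      ((Fin n → ZMod 2) × (Fin n → ZMod 2))) (π : (Fin n → ZMod 2) ≃ (Fin n → ZMod 2)),
      (∀ x, A (x, H x) = (π x, G (π x))) ∧ ∀ p, tri G (A p).1 (A p).2 = tri H p.1 p.2 := by
  obtain ⟨A, hA⟩ := h
  have h1 : ∀ x, A (x, H x) = ((A (x, H x)).1, G (A (x, H x)).1) := by
    intro x
    have : A (x, H x) ∈ {p : (Fin n → ZMod 2) × (Fin n → ZMod 2) | p.2 = G p.1} :=
      hA ▸ Set.mem_image_of_mem A rfl
    exact Prod.ext rfl this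
  have hinj : Function.Injective fun x => (A (x, H x)).1 := by
    intro x y hxy
    have : A (x, H x) = A (y, H y) := by
      rw [h1 x, h1 y]
      exact congrArg (fun u => (u, G u)) hxy
    exact (Prod.ext_iff.1 (A.injective this)).1
  obtain ⟨π, hπ⟩ : ∃ π : (Fin n → ZMod 2) ≃ (Fin n → ZMod 2), ∀ x, A (x, H x) = (π x, G (π x)) :=
    ⟨Equiv.ofBijective _ (Finite.injective_iff_bijective.1 hinj), h1⟩
  refine ⟨A, π, hπ, fun p => ?_⟩
  symm
  refine Finset.card_equiv (π.prodCongr (π.prodCongr π)) ?_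
  rintro ⟨a, b, c⟩
  simp only [mem_filter, mem_univ, true_and, Equiv.prodCongr_apply, Prod.map]
  have h3 := aff_three A (a, H a) (b, H b) (c, H c)
  rw [hπ, hπ, hπ] at h3
  simp only [Prod.mk_add_mk] at h3
  rw [← Prod.ext_iff (x := (a + b + c, H a + H b + H c)) (y := p),
    ← Prod.ext_iff (x := (π a + π b + π c, G (π a) + G (π b) + G (π c))) (y := A p), ← h3,
    A.injective.eq_iff]

theorem tri_switch (G : (Fin n → ZMod 2) → (Fin n → ZMod 2)) (s : Fin n → ZMod 2)
    (f : (Fin n → ZMod 2) → ZMod 2) (x : Fin n → ZMod 2) :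
    tri (fun x => G x + f x • s) x (G x + f x • s) +
      tri (fun x => G x + f x • s) x (G x + f x • s + s) = tri G x (G x) + tri G x (G x + s) := by
  simp only [tri, Finset.card_filter, ← Finset.sum_add_distrib]
  refine Finset.sum_congr rfl fun t _ => ?_
  by_cases h : t.1 + t.2.1 + t.2.2 = x
  swap
  · simp [h]
  simp only [h, true_and]
  obtain ⟨u, hu⟩ : ∃ u, u = G t.1 + G t.2.1 + G t.2.2 := ⟨_, rfl⟩
  have h2 := v_two (n := n)
  have e1 : G t.1 + f t.1 • s + (G t.2.1 + f t.2.1 • s) + (G t.2.2 + f t.2.2 • s) =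
      u + (f t.1 + f t.2.1 + f t.2.2 + f x) • s + f x • s := by
    simp only [add_smul, hu]
    linear_combination (-(f x • s)) * h2
  rw [e1, ← hu, add_right_comm (G x) _ s]
  simp only [add_left_inj]
  rcases z2_cases (f t.1 + f t.2.1 + f t.2.2 + f x) with h' | h' <;> rw [h']
  · simp
  · have e2 : u + s = G x ↔ u = G x + s :=
      ⟨fun h => by linear_combination h - s * h2, fun h => by linear_combination h + s * h2⟩
    simp only [one_smul, add_left_inj, e2]
    exact add_comm _ _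

theorem sum_eq_zero_switch (hn : 3 ≤ n) {H G F : (Fin n → ZMod 2) → (Fin n → ZMod 2)}
    {s : Fin n → ZMod 2} (hs : s ≠ 0) {f : (Fin n → ZMod 2) → ZMod 2} (hH : Plateaued H)
    (hG : CCZ H G) (hF : CCZ (fun x => G x + f x • s) F)
    (hA : ∀ a, a ≠ 0 → ∀ b, (univ.filter fun x => F (x + a) + F x = b).card ≤ 2) :
    ∑ x, F x = 0 := by
  obtain ⟨A, π, hπ, hT⟩ := ccz_data hG
  obtain ⟨B, ρ, hρ, hU⟩ := ccz_data hF
  obtain ⟨w, hw⟩ : ∃ w, A.linear w = (0, s) := A.linear.surjective _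
  obtain ⟨h4, h16⟩ := plat_congr hn hH w.1 w.2
  have key : ∀ x, (tri G (π x) (G (π x)) : ℤ) + tri G (π x) (G (π x) + s) =
      tri H x (H x) + tri H (x + w.1) (H x + w.2) := by
    intro x
    have e1 := hT (x, H x)
    have e2 := hT (w + (x, H x))
    rw [aff_add, hw, hπ] at e2
    rw [hπ] at e1
    simp only [Prod.mk_add_mk, zero_add, Prod.fst_add, Prod.snd_add] at e1 e2
    rw [e1, add_comm (G (π x)) s, e2, add_comm w.1, add_comm w.2]
  have key' : ∀ x, (tri (fun x => G x + f x • s) x (G x + f x • s) : ℤ) +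
      tri (fun x => G x + f x • s) x (G x + f x • s + s) = tri G x (G x) + tri G x (G x + s) := by
    intro x
    exact_mod_cast tri_switch G s f x
  have h0 : ∑ x, (G x + f x • s) = 0 := by
    refine sum_eq_zero_of_congr hn (F := fun x => G x + f x • s) (fun x => ?_) hs (fun x => ?_) ?_
    · have e1 := hU (x, G x + f x • s)
      rw [hρ] at e1
      rw [← e1]
      exact tri_apn hA _
    · obtain ⟨y, rfl⟩ := π.surjective x
      rw [key', key]
      exact h4 y
    · simp only [key']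
      rw [← Equiv.sum_comp π]
      simp only [key]
      exact h16
  have hz : ∀ p : (Fin n → ZMod 2) × (Fin n → ZMod 2), ∑ _x : Fin n → ZMod 2, p = 0 := by
    intro p
    obtain ⟨k, rfl⟩ : ∃ k, n = k + 1 := ⟨n - 1, by omega⟩
    rw [Finset.sum_const, Finset.card_univ, card_V, pow_succ, mul_smul, two_smul, e_add_self,
      smul_zero]
  have hx : ∑ x : Fin n → ZMod 2, x = 0 := by
    funext i
    rw [Finset.sum_apply]
    have := MvPolynomial.sum_eval_eq_zero (K := ZMod 2) (σ := Fin n) (MvPolynomial.X i) (by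
      rw [MvPolynomial.totalDegree_X, ZMod.card, Fintype.card_fin]
      omega)
    simpa using this
  have h1 : ∑ x, B (x, G x + f x • s) = 0 := by
    have : ∀ x, B (x, G x + f x • s) = B.linear (x, G x + f x • s) + B 0 := by
      intro x
      rw [← aff_add, add_zero]
    simp only [this]
    rw [Finset.sum_add_distrib, hz, add_zero, ← map_sum, ← prod_mk_sum, hx, h0]
    exact map_zero _
  simp only [hρ] at h1
  rw [← prod_mk_sum, Equiv.sum_comp ρ F] at h1
  exact (Prod.ext_iff.1 h1).2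

end Pool.Agent.MP_942673_co
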